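import Mathlib

set_option autoImplicit false

namespace Pool.Agent.Results.MP_850d3d_an.Rice

open Set Classical

variable {B Q : Type} [Fintype Q]

/-- local solvency of degree `m` at `a₀` -/
def Solvent (A : Set B) (g : B → Q → ℝ) (m : ℕ) (a₀ : B) : Prop :=
  ∀ T : Finset Q, T.card = m → ∀ ε > 0, ∃ δ > 0, ∀ γ : Q → ℝ, (∀ t ∈ T, |g a₀ t - γ t| < δ) →
    ∃ a ∈ A, (∀ t ∈ T, g a t = γ t) ∧ ‖g a - g a₀‖ < ε

def Varisolvent (A : Set B) (g : B → Q → ℝ) : Prop :=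
  ∃ p : B → ℕ, (∃ a ∈ A, ∃ b ∈ A, p a ≠ p b) ∧ ∀ a₀ ∈ A, 1 ≤ p a₀ ∧ p a₀ ≤ Fintype.card Q ∧
    Solvent A g (p a₀) a₀ ∧
    ∀ a ∈ A, a ≠ a₀ → (Finset.univ.filter fun t => g a₀ t - g a t = 0).card ≤ p a₀ - 1

theorem result (𝕜 B Q : Type) [RCLike 𝕜] [NormedAddCommGroup B] [NormedSpace 𝕜 B]
    [FiniteDimensional 𝕜 B] [Fintype Q] (A : Set B) (g : B → Q → ℝ) (_hg : ContinuousOn g A)
    (hv : Varisolvent A g) (hc : IsConnected (g '' A)) : ¬ IsClosed (g '' A) := by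
  intro hcl
  obtain ⟨p, ⟨a1, ha1, a2, ha2, hne⟩, hp⟩ := hv
  obtain ⟨c, hcA, hm⟩ := Set.Finite.exists_maximalFor' p A ((finite_Iic (Fintype.card Q)).subset
    (by rintro _ ⟨a, ha, rfl⟩; exact (hp a ha).2.1)) ⟨a1, ha1⟩
  replace hm : ∀ a ∈ A, p a ≤ p c := fun a ha => le_of_not_gt fun h => h.not_ge (hm ha h.le)
  obtain ⟨T, -, hT⟩ := Finset.exists_subset_card_eq (s := Finset.univ) (hp c hcA).2.1
  obtain ⟨t, ht⟩ : T.Nonempty := Finset.card_pos.1 (hT ▸ (hp c hcA).1)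
  have share : ∀ a ∈ A, ∀ b ∈ A, g b ≠ g a → (∀ s ∈ T.erase t, g b s = g a s) → p a = p c :=
    fun a ha b hb h1 h2 => by
      have h3 := (hp a ha).2.2.2 b hb fun h => h1 (h ▸ rfl)
      have h4 := Finset.card_le_card (show T.erase t ⊆ Finset.univ.filter fun s =>
        g a s - g b s = 0 from fun s hs => by simp [h2 s hs])
      rw [Finset.card_erase_of_mem ht] at h4
      have := (hp a ha).1; have := hm a ha; omega
  have solv : ∀ a ∈ A, p a = p c → ∀ ε > 0, ∃ δ > 0, ∀ x : Q → ℝ, dist x (g a) < δ →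
      ∃ b ∈ A, (∀ s ∈ T.erase t, g b s = x s) ∧ x t < g b t ∧ dist (g b) (g a) < ε := by
    intro a ha h ε hε
    obtain ⟨δ, hδ, h1⟩ := (hp a ha).2.2.1 T (hT.trans h.symm) ε hε
    refine ⟨δ / 2, by positivity, fun x hx => ?_⟩
    have h2 := fun s => abs_lt.1 ((dist_le_pi_dist x (g a) s).trans_lt hx)
    obtain ⟨b, hb, h3, h4⟩ := h1 (Function.update x t (x t + δ / 2)) fun s _ => by
      have := h2 s
      by_cases h5 : s = t
      · subst h5; simp only [Function.update_self, abs_lt]; constructor <;> linarith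
      · simp only [Function.update_of_ne h5, abs_lt]; constructor <;> linarith
    refine ⟨b, hb, fun s hs => ?_, by rw [h3 t ht]; simpa, by rwa [dist_eq_norm]⟩
    rw [h3 s (Finset.mem_of_mem_erase hs), Function.update_of_ne (Finset.ne_of_mem_erase hs)]
  let P : Set (Q → ℝ) := g '' {a ∈ A | p a = p c}
  have hP : ∀ a ∈ A, g a ∈ closure P → p a = p c := by
    intro a ha h
    let S : (Q → ℝ) → Set (Q → ℝ) := fun y => g '' A ∩ {x | ∀ s ∈ T.erase t, x s = y s}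
    have hS : ∀ y, IsClosed (S y) := fun y => hcl.inter (by
      simp only [setOf_forall]
      exact isClosed_iInter fun s => isClosed_iInter fun _ => isClosed_eq (by fun_prop) (by fun_prop))
    let K : Set (Q → ℝ) := g '' A ∩ (Metric.closedBall (g a) 2 \ Metric.ball (g a) 1)
    have hK : IsCompact K := ((isCompact_closedBall _ _).diff Metric.isOpen_ball).inter_left hcl
    have h1 : ∀ b ∈ A, p b = p c → dist (g b) (g a) ≤ 1 → (K ∩ S (g b)).Nonempty := by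
      intro b hb hpb hd
      obtain ⟨_, ⟨⟨⟨x, hx, rfl⟩, hx1⟩, hx2⟩, h2⟩ := ((isCompact_closedBall (g a) 1).inter_left
        (hS (g b))).exists_isMaxOn ⟨g b, ⟨⟨b, hb, rfl⟩, fun _ _ => rfl⟩, hd⟩
          (continuous_apply t).continuousOn
      have h3 : p x = p c := by
        by_cases h4 : b = x
        · exact h4 ▸ hpb
        by_cases h5 : g b = g x
        · have := (hp x hx).2.2.2 b hb h4
          have := (hp x hx).2.1; have := (hp x hx).1
          simp [h5] at *; omega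
        · exact share x hx b hb h5 fun s hs => (hx1 s hs).symm
      obtain ⟨δ, hδ, h4⟩ := solv x hx h3 1 one_pos
      obtain ⟨y, hy, h5, h6, h7⟩ := h4 (g x) (by simpa)
      have h8 : g y ∈ S (g b) := ⟨⟨y, hy, rfl⟩, fun s hs => (h5 s hs).trans (hx1 s hs)⟩
      refine ⟨g y, ⟨h8.1, ?_, fun h9 => h6.not_ge (h2 ⟨h8, Metric.ball_subset_closedBall h9⟩)⟩, h8⟩
      have := dist_triangle (g y) (g x) (g a)
      rw [Metric.mem_closedBall] at hx2 ⊢
      linarith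
    obtain ⟨u, hu, hl⟩ := mem_closure_iff_seq_limit.1 h
    have h2 : ∀ᶠ n in Filter.atTop, ∃ x ∈ K, x ∈ S (u n) := by
      filter_upwards [hl.eventually (Metric.closedBall_mem_nhds _ one_pos)] with n hn
      obtain ⟨b, hb, h3⟩ := hu n
      exact h3 ▸ h1 b hb.1 hb.2 (h3 ▸ hn)
    obtain ⟨x, hx⟩ := h2.choice
    obtain ⟨_, ⟨⟨b, hb, rfl⟩, -, hb1⟩, φ, hφ, h3⟩ :=
      hK.tendsto_subseq' (x := x) (hx.mono fun n h => h.1).frequently
    refine share a ha b hb (fun h => hb1 (by simp [h])) fun s hs => ?_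
    refine tendsto_nhds_unique_of_eventuallyEq (tendsto_pi_nhds.1 h3 s)
      (tendsto_pi_nhds.1 (hl.comp hφ.tendsto_atTop) s) ?_
    filter_upwards [hφ.tendsto_atTop.eventually hx] with n hn using hn.2.2 s hs
  obtain ⟨d, hd, hdc⟩ : ∃ d ∈ A, p d ≠ p c := by
    by_contra! h; exact hne ((h _ ha1).trans (h _ ha2).symm)
  obtain ⟨_, ⟨a, ha, rfl⟩, h1, h2⟩ := isPreconnected_closed_iff.1 hc.2 (closure P)
    (closure (g '' {a ∈ A | p a ≠ p c})) isClosed_closure isClosed_closure (by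
      rintro _ ⟨a, ha, rfl⟩
      by_cases h : p a = p c
      · exact .inl (subset_closure ⟨a, ⟨ha, h⟩, rfl⟩)
      · exact .inr (subset_closure ⟨a, ⟨ha, h⟩, rfl⟩))
    ⟨_, ⟨c, hcA, rfl⟩, subset_closure ⟨c, ⟨hcA, rfl⟩, rfl⟩⟩
    ⟨_, ⟨d, hd, rfl⟩, subset_closure ⟨d, ⟨hd, hdc⟩, rfl⟩⟩
  obtain ⟨δ, hδ, h3⟩ := solv a ha (hP a ha h1) 1 one_pos
  obtain ⟨_, ⟨b, hb, rfl⟩, h4⟩ := Metric.mem_closure_iff.1 h2 δ hδ
  obtain ⟨e, he, h5, h6, -⟩ := h3 (g b) (by rwa [dist_comm])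
  exact hb.2 (share b hb.1 e he (fun h => h6.ne (h ▸ rfl)) h5)

end Pool.Agent.Results.MP_850d3d_an.Rice
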